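import Mathlib

set_option autoImplicit false

namespace Pool.Agent.LibNR93

open Polynomial

/-- The tuple `z` satisfies a nontrivial polynomial relation of degree at most `d` with coefficients in `W`. -/
def Rel {K : Type*} [Field K] [Algebra K ℂ] (W : Submodule K ℂ) (d : ℕ) {s : ℕ} (z : Fin s → ℂ) :
    Prop :=
  ∃ P : MvPolynomial (Fin s) ℂ, P ≠ 0 ∧ P.totalDegree ≤ d ∧ (∀ m, P.coeff m ∈ W) ∧
    MvPolynomial.eval z P = 0

/-- `z` is a root of a nonzero polynomial of degree at most `d` with coefficients in `W`. -/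
def Root {K : Type*} [Field K] [Algebra K ℂ] (W : Submodule K ℂ) (d : ℕ) (z : ℂ) : Prop :=
  ∃ P : ℂ[X], P ≠ 0 ∧ P.natDegree ≤ d ∧ (∀ i, P.coeff i ∈ W) ∧ P.eval z = 0

/-- One more entry. -/
theorem exists_step {K : Type*} [Field K] [Algebra K ℂ] (W : Submodule K ℂ)
    [FiniteDimensional K W] (d s : ℕ) (z : Fin s → ℂ) (hz : ¬ Rel W d z) :
    ∃ W' : Submodule K ℂ, FiniteDimensional K W' ∧
      Module.finrank K W' ≤ (d + 1) ^ s * Module.finrank K W ∧
        ∀ z0 : ℂ, ¬ Root W' d z0 → ¬ Rel W d (Fin.cons z0 z : Fin (s + 1) → ℂ) := by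
  classical
  let T : ((Fin s → Fin (d + 1)) → W) →ₗ[K] ℂ :=
    ∑ m : Fin s → Fin (d + 1), (LinearMap.mulLeft K (∏ j, z j ^ (m j : ℕ))).comp
      (W.subtype.comp (LinearMap.proj m))
  have hT : ∀ g, T g = ∑ m : Fin s → Fin (d + 1), (∏ j, z j ^ (m j : ℕ)) * ((g m : W) : ℂ) := by
    intro g
    simp [T, LinearMap.sum_apply]
  refine ⟨LinearMap.range T, inferInstance, ?_, ?_⟩
  · refine (LinearMap.finrank_range_le T).trans ?_
    rw [Module.finrank_pi_fintype]
    simp
  · rintro z0 hz0 ⟨P, hP0, hPd, hPW, hPz⟩
    apply hz0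
    set F := MvPolynomial.finSuccEquiv ℂ s P with hF
    have hF0 : F ≠ 0 := by
      intro h
      apply hP0
      exact (MvPolynomial.finSuccEquiv ℂ s).injective (by rw [← hF, h, map_zero])
    have hcW : ∀ i m, (F.coeff i).coeff m ∈ W := by
      intro i m
      rw [hF, MvPolynomial.finSuccEquiv_coeff_coeff]
      exact hPW _
    have hcd : ∀ i, (F.coeff i).totalDegree ≤ d := by
      intro i
      by_cases h : F.coeff i = 0
      · rw [h]; simp
      · have := MvPolynomial.totalDegree_coeff_finSuccEquiv_add_le P i h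
        exact (Nat.le_add_right _ _).trans (this.trans hPd)
    refine ⟨F.map (MvPolynomial.eval z), ?_, ?_, ?_, ?_⟩
    · obtain ⟨i, hi⟩ : ∃ i, F.coeff i ≠ 0 := by
        by_contra hcon
        push Not at hcon
        exact hF0 (Polynomial.ext (by simpa using hcon))
      intro h
      apply hz
      refine ⟨F.coeff i, hi, hcd i, hcW i, ?_⟩
      have := congrArg (fun q => Polynomial.coeff q i) h
      simpa using this
    · refine Polynomial.natDegree_map_le.trans ?_
      rw [hF, MvPolynomial.natDegree_finSuccEquiv]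
      exact (MvPolynomial.degreeOf_le_totalDegree P 0).trans hPd
    · intro i
      rw [Polynomial.coeff_map]
      refine ⟨fun m => ⟨(F.coeff i).coeff
        (Finsupp.equivFunOnFinite.symm (fun j => (m j : ℕ))), hcW _ _⟩, ?_⟩
      rw [hT]
      simp only
      rw [MvPolynomial.eval_eq']
      have hle : ∀ m ∈ (F.coeff i).support, ∀ j, m j ≤ d := by
        intro m hm j
        have h1 := MvPolynomial.le_totalDegree hm
        have h2 : m j ≤ m.sum fun _ e => e := by
          rw [Finsupp.sum_fintype _ _ (fun _ => rfl)]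
          exact Finset.single_le_sum (fun _ _ => Nat.zero_le _) (Finset.mem_univ j)
        exact h2.trans (h1.trans (hcd i))
      symm
      refine Finset.sum_bij_ne_zero (fun m hm _ => fun j => (⟨m j, Nat.lt_succ_of_le (hle m hm j)⟩ : Fin (d + 1)))
        (fun _ _ _ => Finset.mem_univ _) ?_ ?_ ?_
      · intro m1 h1 _ m2 h2 _ he
        ext j
        have := congrArg Fin.val (congrFun he j)
        exact this
      · intro m _ hm
        refine ⟨Finsupp.equivFunOnFinite.symm (fun j => (m j : ℕ)), ?_, ?_, ?_⟩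
        · rw [MvPolynomial.mem_support_iff]
          intro h0
          apply hm
          rw [h0, mul_zero]
        · intro h0
          apply hm
          rw [mul_comm]
          simpa using h0
        · funext j
          simp
      · intro m hm _
        have : Finsupp.equivFunOnFinite.symm (fun j => ((⟨m j, Nat.lt_succ_of_le (hle m hm j)⟩ : Fin (d + 1)) : ℕ)) = m := by
          ext j
          simp
        rw [this, mul_comm]
    · rw [← MvPolynomial.eval_eq_eval_mv_eval']
      exact hPz

end Pool.Agent.LibNR93
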