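import Pool.Agent.LibNR93.Win
import Pool.Agent.LibNR93.Tup

set_option autoImplicit false

namespace Pool.Agent.LibNR93

open Pool.HB89

/-- Tuples in windows. -/
theorem tuple_windows {K : Type*} [Field K] [Algebra K ℂ] (hK : Transcendental K (Real.pi : ℂ))
    (W : Submodule K ℂ) [FiniteDimensional K W] (d : ℕ) :
    ∀ (s : ℕ) (l : Fin s → ℕ) (m : Fin s → ℕ) (a : ∀ i, Fin (l i + 1) → ℕ),
      (∀ i, 2 ^ l i * (d * ((d + 1) ^ (s - 1) * Module.finrank K W) ^ 2) < m i) →
        ∃ p : ∀ i, Fin (l i + 1) → ℕ, (∀ i, ∑ j, p i j < m i) ∧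
          ¬ Rel W d (fun i => (mzv (word (l i) (a i + p i)) : ℂ)) := by
  intro s
  induction s with
  | zero =>
    intro l m a _
    refine ⟨fun i => i.elim0, fun i => i.elim0, ?_⟩
    rintro ⟨P, hP0, -, -, hPz⟩
    apply hP0
    rw [MvPolynomial.eq_C_of_isEmpty P] at hPz ⊢
    rw [MvPolynomial.eval_C] at hPz
    rw [hPz, map_zero]
  | succ s ih =>
    intro l m a hm
    obtain ⟨p', hp1, hp2⟩ := ih (fun i => l i.succ) (fun i => m i.succ) (fun i => a i.succ) (by
      intro i
      refine lt_of_le_of_lt ?_ (hm i.succ)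
      have : (d + 1) ^ (s - 1) ≤ (d + 1) ^ (s + 1 - 1) := Nat.pow_le_pow_right (by omega) (by omega)
      gcongr)
    obtain ⟨W', hW'f, hW'd, hW'⟩ := exists_step W d s _ hp2
    obtain ⟨p0, hp01, hp02⟩ : ∃ p0 : Fin (l 0 + 1) → ℕ, ∑ j, p0 j < m 0 ∧
        ¬ Root W' d (mzv (word (l 0) (a 0 + p0)) : ℂ) := by
      by_contra hcon
      push Not at hcon
      have h1 := windows_roots (l 0) (m 0) d (a 0) hK W' hcon
      have h2 := hm 0
      have h3 : 2 ^ l 0 * (d * Module.finrank K W' ^ 2) ≤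
          2 ^ l 0 * (d * ((d + 1) ^ (s + 1 - 1) * Module.finrank K W) ^ 2) := by
        rw [Nat.add_sub_cancel]
        gcongr
      omega
    refine ⟨Fin.cons p0 p', ?_, ?_⟩
    · intro i
      refine Fin.cases ?_ (fun i => ?_) i
      · simpa using hp01
      · simpa using hp1 i
    · have h := hW' _ hp02
      have he : (fun i => (mzv (word (l i) (a i + (Fin.cons p0 p' : ∀ i, Fin (l i + 1) → ℕ) i)) : ℂ)) =
          (Fin.cons (mzv (word (l 0) (a 0 + p0)) : ℂ)
            (fun i : Fin s => (mzv (word (l i.succ) (a i.succ + p' i)) : ℂ)) : Fin (s + 1) → ℂ) := by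
        funext i
        refine Fin.cases ?_ (fun i => ?_) i
        · simp
        · simp
      rw [he]
      exact h

end Pool.Agent.LibNR93
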