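import Pool.Agent.LibHof81.V1
import Pool.Agent.LibHof81.V2

set_option autoImplicit false

namespace Pool.Agent.LibNR93

open Polynomial

/-- A valuation trivial on `K` takes at most `d * n ^ 2` values on the nonzero roots of the nonzero polynomials of degree
at most `d` with coefficients in an `n`-dimensional space. -/
theorem root_values {K : Type*} [Field K] [Algebra K ℂ] {Γ : Type}
    [LinearOrderedCommGroupWithZero Γ] (v : Valuation ℂ Γ)
    (hv : ∀ k : K, k ≠ 0 → v (algebraMap K ℂ k) = 1) (d : ℕ)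
    (W : Submodule K ℂ) [FiniteDimensional K W] :
    ∃ D : Finset Γ, D.card ≤ d * (Module.finrank K W) ^ 2 ∧
      ∀ z : ℂ, z ≠ 0 → (∃ P : ℂ[X], P ≠ 0 ∧ P.natDegree ≤ d ∧ (∀ i, P.coeff i ∈ W) ∧ P.eval z = 0) →
        v z ∈ D := by
  classical
  set n := Module.finrank K W with hn
  set b := Module.finBasis K W with hb
  obtain ⟨G, hGc, hG⟩ := Pool.Agent.LibHof81.values_card v hv n (fun i => ((b i : W) : ℂ))
  have hspan : ∀ w ∈ W, w ∈ Submodule.span K (Set.range fun i => ((b i : W) : ℂ)) := by
    intro w hw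
    have h1 : (⟨w, hw⟩ : W) = ∑ i, b.repr ⟨w, hw⟩ i • b i := (b.sum_repr _).symm
    have h2 : w = ∑ i, b.repr ⟨w, hw⟩ i • ((b i : W) : ℂ) := by
      have := congrArg (Submodule.subtype W) h1
      rw [map_sum] at this
      simpa using this
    rw [h2]
    exact Submodule.sum_mem _ (fun i _ => Submodule.smul_mem _ _ (Submodule.subset_span ⟨i, rfl⟩))
  let f : (Γ × Γ) × ℕ → Γ := fun p => if h : ∃ δ : Γ, δ ^ p.2 * p.1.2 = p.1.1 then h.choose else 0
  refine ⟨((G ×ˢ G) ×ˢ (Finset.Icc 1 d)).image f, ?_, ?_⟩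
  · refine Finset.card_image_le.trans ?_
    rw [Finset.card_product, Finset.card_product, Nat.card_Icc]
    have : G.card * G.card ≤ n * n := Nat.mul_le_mul hGc hGc
    calc G.card * G.card * (d + 1 - 1) ≤ n * n * d := by
          rw [Nat.add_sub_cancel]; exact Nat.mul_le_mul_right _ this
      _ = d * n ^ 2 := by ring
  · rintro z hz ⟨P, hP0, hPd, hPW, hPz⟩
    set S := P.support with hS
    have hSne : S.Nonempty := Polynomial.support_nonempty.2 hP0
    have hsum : ∑ i ∈ S, P.coeff i * z ^ i = 0 := by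
      rw [← hPz, Polynomial.eval_eq_sum, Polynomial.sum_def]
    have hne : ∀ i ∈ S, P.coeff i * z ^ i ≠ 0 := fun i hi =>
      mul_ne_zero (Polynomial.mem_support_iff.1 hi) (pow_ne_zero _ hz)
    obtain ⟨m, hm, hmax⟩ := S.exists_max_image (fun i => v (P.coeff i * z ^ i)) hSne
    -- the maximum is attained twice
    obtain ⟨k, hk, hkm, hkv⟩ : ∃ k ∈ S, k ≠ m ∧ v (P.coeff k * z ^ k) = v (P.coeff m * z ^ m) := by
      by_contra hcon
      push Not at hcon
      have hlt : ∀ i ∈ S \ {m}, v (P.coeff i * z ^ i) < v (P.coeff m * z ^ m) := by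
        intro i hi
        rw [Finset.mem_sdiff, Finset.mem_singleton] at hi
        exact lt_of_le_of_ne (hmax i hi.1) (hcon i hi.1 hi.2)
      have h1 := v.map_sum_eq_of_lt hm hlt
      rw [hsum, map_zero] at h1
      exact (v.ne_zero_iff.2 (hne m hm)) h1.symm
    -- order the two indices
    have key : ∀ i ∈ S, ∀ j ∈ S, i < j → v (P.coeff i * z ^ i) = v (P.coeff j * z ^ j) →
        v z ∈ ((G ×ˢ G) ×ˢ (Finset.Icc 1 d)).image f := by
      intro i hi j hj hij he
      have hi0 := Polynomial.mem_support_iff.1 hi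
      have hj0 := Polynomial.mem_support_iff.1 hj
      have hGi := hG _ (hspan _ (hPW i)) hi0
      have hGj := hG _ (hspan _ (hPW j)) hj0
      have hjd : j ≤ d := (Polynomial.le_natDegree_of_ne_zero hj0).trans hPd
      have hvz : v z ≠ 0 := v.ne_zero_iff.2 hz
      have h1 : v z ^ (j - i) * v (P.coeff j) = v (P.coeff i) := by
        rw [map_mul, map_mul, map_pow, map_pow] at he
        have h2 : v z ^ j = v z ^ i * v z ^ (j - i) := by
          rw [← pow_add]
          congr 1
          omega
        rw [h2] at he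
        have h3 : v z ^ i * v (P.coeff i) = v z ^ i * (v z ^ (j - i) * v (P.coeff j)) := by
          rw [mul_comm, he, mul_comm, mul_assoc]
        exact (mul_left_cancel₀ (pow_ne_zero i hvz) h3).symm
      have h3 : ∃ δ : Γ, δ ^ ((v (P.coeff i), v (P.coeff j)), j - i).2 *
          ((v (P.coeff i), v (P.coeff j)), j - i).1.2 =
            ((v (P.coeff i), v (P.coeff j)), j - i).1.1 := ⟨v z, h1⟩
      refine Finset.mem_image.2 ⟨((v (P.coeff i), v (P.coeff j)), j - i), ?_, ?_⟩
      · refine Finset.mem_product.2 ⟨Finset.mem_product.2 ⟨hGi, hGj⟩, Finset.mem_Icc.2 ?_⟩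
        simp only
        omega
      · simp only [f]
        rw [dif_pos h3]
        have h5 := h3.choose_spec
        have hvj : v (P.coeff j) ≠ 0 := v.ne_zero_iff.2 hj0
        have h6 : h3.choose ^ (j - i) = v z ^ (j - i) := by
          apply mul_right_cancel₀ hvj
          rw [h1]
          exact h5
        exact (pow_left_inj₀ zero_le zero_le (by omega)).1 h6
    rcases lt_or_gt_of_ne hkm with h | h
    · exact key k hk m hm h hkv
    · exact key m hm k hk h hkv.symm

end Pool.Agent.LibNR93
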