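import Pool.Agent.LibNR93.Val
import Pool.Agent.LibHB89.E3

set_option autoImplicit false

namespace Pool.Agent.LibNR93

open Polynomial Pool.HB89

/-- The values increase along a chain: abstract form. -/
theorem window_values {Γ : Type} [LinearOrderedCommGroupWithZero Γ] (v : Valuation ℂ Γ)
    (hvQ : ∀ q : ℚ, v (q : ℂ) ≤ 1) {x : ℂ} (hx : 1 < v x)
    (n L : ℕ) (S : Finset (Fin n → ℕ)) (c : (Fin n → ℕ) → ℚ) (hS0 : 0 ∈ S) (hc0 : c 0 = 1)
    (hSL : ∀ p ∈ S, ∑ i, p i ≤ L) (H : (Fin n → ℕ) → ℂ)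
    (hrel : ∀ a, ∑ p ∈ S, (c p : ℂ) * (x ^ (L - ∑ i, p i) * H (a + p)) = 0)
    (D : Finset Γ) (a : Fin n → ℕ) (hH : ∀ p, H p ≠ 0) (m : ℕ)
    (hV : ∀ p : Fin n → ℕ, ∑ i, p i < m → v (H (a + p)) ∈ D) :
    m ≤ L * D.card := by
  classical
  have hx0 : v x ≠ 0 := (zero_lt_one.trans hx).ne'
  -- one step
  have step : ∀ q : Fin n → ℕ, ∃ p ∈ S, v (H (a + q)) < v (H (a + (q + p))) := by
    intro q
    by_contra hcon
    push Not at hcon
    have h1 := hrel (a + q)
    rw [← Finset.add_sum_erase _ _ hS0, hc0] at h1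
    have h7 : (∑ i, (0 : Fin n → ℕ) i) = 0 := by simp
    rw [h7] at h1
    simp only [Nat.sub_zero, add_zero, Rat.cast_one, one_mul] at h1
    have h2 : v (∑ p ∈ S.erase 0, (c p : ℂ) * (x ^ (L - ∑ i, p i) * H (a + q + p))) <
        v (x ^ L * H (a + q)) := by
      apply Valuation.map_sum_lt
      · exact v.ne_zero_iff.2 (mul_ne_zero (pow_ne_zero _ (v.ne_zero_iff.1 hx0)) (hH _))
      · intro p hp
        have hp0 : p ≠ 0 := Finset.ne_of_mem_erase hp
        have hpS := Finset.mem_of_mem_erase hp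
        have hpL := hSL p hpS
        have hp1 : 1 ≤ ∑ i, p i := by
          by_contra hcon
          apply hp0
          funext i
          have : p i ≤ ∑ j, p j := Finset.single_le_sum (fun _ _ => Nat.zero_le _) (Finset.mem_univ i)
          show p i = 0
          omega
        rw [map_mul, map_mul, map_mul, map_pow, map_pow, add_assoc]
        have h3 : v x ^ (L - ∑ i, p i) < v x ^ L := by
          apply pow_lt_pow_right₀ hx
          omega
        have h4 := hcon p hpS
        have h5 : v (H (a + q)) ≠ 0 := v.ne_zero_iff.2 (hH _)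
        calc v (c p : ℂ) * (v x ^ (L - ∑ i, p i) * v (H (a + (q + p))))
            ≤ 1 * (v x ^ (L - ∑ i, p i) * v (H (a + q))) := by gcongr; exact hvQ _
          _ = v x ^ (L - ∑ i, p i) * v (H (a + q)) := one_mul _
          _ < v x ^ L * v (H (a + q)) := by
              exact mul_lt_mul_of_pos_right h3 (zero_lt_iff.2 h5)
    have h3 : ∑ p ∈ S.erase 0, (c p : ℂ) * (x ^ (L - ∑ i, p i) * H (a + q + p)) =
        -(x ^ L * H (a + q)) := eq_neg_of_add_eq_zero_right h1
    rw [h3, Valuation.map_neg] at h2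
    exact lt_irrefl _ h2
  have chain : ∀ k : ℕ, L * k < m → ∃ q : Fin n → ℕ, ∑ i, q i ≤ L * k ∧
      k ≤ (D.filter (fun γ => γ < v (H (a + q)))).card := by
    intro k
    induction k with
    | zero =>
      intro _
      exact ⟨0, by simp, Nat.zero_le _⟩
    | succ k ih =>
      intro hk
      obtain ⟨q, hq1, hq2⟩ := ih (by rw [Nat.mul_succ] at hk; omega)
      obtain ⟨p, hp, hlt⟩ := step q
      have hsum : ∑ i, (q + p) i = ∑ i, q i + ∑ i, p i := by
        simp only [Pi.add_apply]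
        exact Finset.sum_add_distrib
      have hpL := hSL p hp
      refine ⟨q + p, ?_, ?_⟩
      · rw [hsum, Nat.mul_succ]
        omega
      · have hmem : v (H (a + q)) ∈ D := hV q (by rw [Nat.mul_succ] at hk; omega)
        have hsub : insert (v (H (a + q))) (D.filter (fun γ => γ < v (H (a + q)))) ⊆
            D.filter (fun γ => γ < v (H (a + (q + p)))) := by
          intro γ hγ
          rw [Finset.mem_insert, Finset.mem_filter] at hγ
          rw [Finset.mem_filter]
          rcases hγ with rfl | hγ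
          · exact ⟨hmem, hlt⟩
          · exact ⟨hγ.1, hγ.2.trans hlt⟩
        have hc := Finset.card_le_card hsub
        rw [Finset.card_insert_of_notMem] at hc
        · omega
        · simp
  by_contra hcon
  push Not at hcon
  obtain ⟨q, hq1, hq2⟩ := chain D.card hcon
  have hmem : v (H (a + q)) ∈ D := hV q (by omega)
  have hlt : (D.filter (fun γ => γ < v (H (a + q)))).card < D.card := by
    apply Finset.card_lt_card
    rw [Finset.ssubset_iff_of_subset (Finset.filter_subset _ _)]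
    exact ⟨_, hmem, by simp⟩
  omega

/-- If all values of a window take few valuations, the window is short. -/
theorem windows_values (l m : ℕ) (a : Fin (l + 1) → ℕ) {K : Type*} [Field K] [Algebra K ℂ]
    (hK : Transcendental K (Real.pi : ℂ)) (Z : Set ℂ) (N : ℕ)
    (hZ : ∀ (Γ : Type) [LinearOrderedCommGroupWithZero Γ] (v : Valuation ℂ Γ),
      (∀ k : K, k ≠ 0 → v (algebraMap K ℂ k) = 1) → ∃ D : Finset Γ, D.card ≤ N ∧
        ∀ z ∈ Z, z ≠ 0 → v z ∈ D)
    (hV : ∀ p : Fin (l + 1) → ℕ, ∑ i, p i < m → (mzv (word l (a + p)) : ℂ) ∈ Z) :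
    m ≤ 2 ^ l * N := by
  obtain ⟨S, c, hS0, hc0, hSL, hrel⟩ := exists_even_relation l
  obtain ⟨Γ, _, v, hvx, hvK⟩ :=
    Pool.Agent.LibHof81.exists_valuation ((Real.pi : ℂ) ^ 2) (pi_sq_transcendental hK)
  obtain ⟨D, hDN, hD⟩ := hZ Γ v hvK
  have hcz : CharZero K := (algebraMap K ℂ).charZero
  have hvq : ∀ q : ℚ, q ≠ 0 → v (q : ℂ) = 1 := by
    intro q hq
    have : (q : ℂ) = algebraMap K ℂ (q : K) := by rw [map_ratCast]
    rw [this]
    exact hvK _ (by exact_mod_cast hq)
  refine (window_values v ?_ hvx (l + 1) (2 ^ l) S c hS0 hc0 hSL (Hv l)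
    (Hv_relation l S c (2 ^ l) hSL hrel) D a (Hv_ne_zero l) m ?_).trans
      (Nat.mul_le_mul_left _ hDN)
  · intro q
    by_cases hq : q = 0
    · rw [hq]; simp
    · exact (hvq q hq).le
  · intro p hp
    have h1 : v (Hv l (a + p)) = v (mzv (word l (a + p)) : ℂ) := by
      rw [Hv, map_mul]
      have h2 := hvq (nfac l (a + p) : ℚ) (by exact_mod_cast nfac_ne_zero l (a + p))
      rw [Rat.cast_natCast] at h2
      rw [h2, one_mul]
    rw [h1]
    exact hD _ (hV p hp) (mzv_word_ne_zero l (a + p))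

/-- The nonlinear windows. -/
theorem windows_roots (l m d : ℕ) (a : Fin (l + 1) → ℕ) {K : Type*} [Field K] [Algebra K ℂ]
    (hK : Transcendental K (Real.pi : ℂ)) (W : Submodule K ℂ) [FiniteDimensional K W]
    (hV : ∀ p : Fin (l + 1) → ℕ, ∑ i, p i < m →
      ∃ P : ℂ[X], P ≠ 0 ∧ P.natDegree ≤ d ∧ (∀ i, P.coeff i ∈ W) ∧
        P.eval (mzv (word l (a + p)) : ℂ) = 0) :
    m ≤ 2 ^ l * (d * (Module.finrank K W) ^ 2) := by
  refine windows_values l m a hK
    {z | ∃ P : ℂ[X], P ≠ 0 ∧ P.natDegree ≤ d ∧ (∀ i, P.coeff i ∈ W) ∧ P.eval z = 0} _ ?_ hV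
  intro Γ _ v hv
  obtain ⟨D, h1, h2⟩ := root_values v hv d W
  exact ⟨D, h1, fun z hz hz0 => h2 z hz0 hz⟩

end Pool.Agent.LibNR93
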